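import Pool.Agent.H47.GR.Coeff
import Pool.Agent.H99.PA.Defs

/-!
# The same statements for the definitions of `Pool.Agent.H99.PA`
-/

set_option autoImplicit false

open Finset Pool.H53.RQ

namespace Pool.Agent.H47.GR

theorem rho_eq (x : ℕ → ℝ) (s : Finset ℕ) (i : ℕ) : Pool.Agent.H99.PA.rho x s i = rho x s i := rfl

theorem Gr_eq {R : Type} [CommRing R] [Algebra ℝ R] (x : ℕ → ℝ) (K : ℕ → ℕ → R) (n : ℕ) :
    ∀ s : Finset ℕ, Pool.Agent.H99.PA.Gr x K n s = Gr x K n s := by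
  induction n with
  | zero => intro s; rfl
  | succ n ih =>
    intro s
    rw [Pool.Agent.H99.PA.Gr, Gr, Algebra.smul_def]
    congr 1
    refine sum_congr rfl fun i _ => sum_congr rfl fun j _ => ?_
    rw [ih, Algebra.smul_def]
    rfl

/-- the statement of the module Cof -/
theorem coeff_Gr' (A : ℕ → ℕ → ℝ) (hA : ∀ a b, A a b = -A b a) (x : ℕ → ℝ) (m d : ℕ)
    (s : Finset ℕ) :
    PowerSeries.coeff d (Pool.Agent.H99.PA.Gr x (Pool.Agent.H99.PA.Bk A x) m s) =
      ∑ T ∈ Pool.Agent.H99.PA.TT m d, pf A (dl T) * P x (dl T) s := by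
  rw [Gr_eq]
  exact coeff_Gr x A hA m d s

end Pool.Agent.H47.GR
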