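import Pool.Agent.H47.GR.Bridge
import Pool.Agent.H99.PA.GrS

/-!
# The sum of two kernels, for the definitions of `Pool.Agent.H99.PA`
-/

set_option autoImplicit false

namespace Pool.Agent.H47.GR

open Finset

variable {A : Type} [CommRing A] [Algebra ℝ A]

/-- the sum of the Schur kernel and another kernel -/
theorem Gr_add_of (x : ℕ → ℝ) (S B : ℕ → ℕ → A) (n : ℕ) {s : Finset ℕ}
    (hS : ∀ k, ∀ t ⊆ s, t.card = 2 * k → Gr x S k t = 1) (hs : s.card = 2 * n) :
    Gr x (fun i j => S i j + B i j) n s = ∑ m ∈ range (n + 1), Gr x B m s := by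
  have h1 := TT_pow_one x (fun i j => S i j + B i j) n (subset_refl s)
  have hc : Commute (TT x s B) (TT x s S) := TT_comm x s _ _
  rw [TT_add, add_comm, hc.add_pow] at h1
  have h2 : ∀ m ∈ range (n + 1), (((TT x s B) ^ m * (TT x s S) ^ (n - m) *
      ((n.choose m : ℕ) : Module.End A (Finset ℕ → A))) (fun _ => 1)) s =
      algebraMap ℝ A (2 ^ n * n.factorial) * Gr x B m s := by
    intro m hm
    have hmn : m ≤ n := Nat.lt_succ_iff.1 (mem_range.1 hm)
    rw [Module.End.mul_apply, Module.End.mul_apply]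
    have e1 : ((n.choose m : ℕ) : Module.End A (Finset ℕ → A)) (fun _ => (1 : A)) =
        ((n.choose m : ℕ) : A) • (fun _ => (1 : A)) := by
      rw [Module.End.natCast_apply]
      funext z
      simp
    have e2 : ∀ s' ⊆ s, s'.card = 2 * (n - m) →
        ((TT x s S) ^ (n - m)) (fun _ => 1) s' =
          (algebraMap ℝ A (2 ^ (n - m) * (n - m).factorial) • (fun _ => (1 : A))) s' := by
      intro s' hs' hc'
      rw [TT_pow_one x S (n - m) hs', hS (n - m) s' hs' hc', Pi.smul_apply, smul_eq_mul]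
    rw [e1, map_smul, map_smul, Pi.smul_apply, TT_pow_congr x B e2 m s (subset_refl s) (by omega),
      map_smul, Pi.smul_apply, TT_pow_one x B m (subset_refl s), smul_eq_mul, smul_eq_mul,
      ← map_natCast (algebraMap ℝ A), ← mul_assoc, ← mul_assoc, ← map_mul, ← map_mul]
    congr 2
    rw [← Nat.choose_mul_factorial_mul_factorial hmn]
    push_cast
    have e3 : (2 : ℝ) ^ n = 2 ^ (n - m) * 2 ^ m := by rw [← pow_add]; congr 1; omega
    rw [e3]
    ring
  rw [LinearMap.sum_apply, Finset.sum_apply, sum_congr rfl h2, ← mul_sum] at h1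
  have h3 : algebraMap ℝ A (2 ^ n * n.factorial)⁻¹ * algebraMap ℝ A (2 ^ n * n.factorial) = 1 := by
    rw [← map_mul, inv_mul_cancel₀ (by positivity), map_one]
  have h4 := congrArg (fun z => algebraMap ℝ A (2 ^ n * n.factorial)⁻¹ * z) h1
  simp only [← mul_assoc] at h4
  rw [h3, one_mul, one_mul] at h4
  exact h4.symm

/-- the statement of the module GrAdd -/
theorem Gr_add' (x : ℕ → ℝ) (B : ℕ → ℕ → A) (n : ℕ) (s : Finset ℕ)
    (hs : Pool.Agent.H99.PA.Gd x s) (hc : s.card = 2 * n) :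
    Pool.Agent.H99.PA.Gr x (fun i j => algebraMap ℝ A (Pool.Agent.H99.PA.Sk x i j) + B i j) n s =
      ∑ m ∈ range (n + 1), Pool.Agent.H99.PA.Gr x B m s := by
  rw [Gr_eq, Gr_add_of x (fun i j => algebraMap ℝ A (Pool.Agent.H99.PA.Sk x i j)) B n _ hc]
  · exact sum_congr rfl fun m _ => (Gr_eq x B m s).symm
  · intro k t ht hk
    rw [← Gr_eq]
    exact Pool.Agent.H99.PA.Gr_Sk x k t
      (fun a ha b hb hab => hs a (ht ha) b (ht hb) hab) hk

end Pool.Agent.H47.GR
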