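import Pool.Agent.H47.GR.Comm

/-!
# The sum for the Schur kernel and for a sum of two kernels
-/

set_option autoImplicit false

namespace Pool.Agent.H47.GR

open Finset

variable {A : Type} [CommRing A] [Algebra ℝ A]

/-- the Schur kernel -/
noncomputable def SK (A : Type) [CommRing A] [Algebra ℝ A] (x : ℕ → ℝ) (i j : ℕ) : A :=
  algebraMap ℝ A ((x i - x j) / (x i + x j))

theorem rho_mul_sum (x : ℕ → ℝ) {s : Finset ℕ} (hinj : Set.InjOn x s)
    (h0 : ∀ i ∈ s, ∀ j ∈ s, x i + x j ≠ 0) (hs : Even s.card) {i : ℕ} (hi : i ∈ s) :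
    rho x s i * ∑ j ∈ s.erase i, rho x (s.erase i) j * ((x i - x j) / (x i + x j)) = 1 := by
  have hpos : 0 < s.card := card_pos.2 ⟨i, hi⟩
  have hodd : Odd (s.erase i).card := by
    rw [card_erase_of_mem hi]
    obtain ⟨k, hk⟩ := hs
    exact ⟨k - 1, by omega⟩
  rw [sum_rho_S x (s.erase i) (hinj.mono (by simp [erase_subset])) (fun j hj h => by
      have := h0 j (mem_of_mem_erase hj) j (mem_of_mem_erase hj)
      exact this (by linarith)) hodd (x i) (fun j hj => h0 i hi j (mem_of_mem_erase hj))]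
  unfold rho
  rw [← prod_mul_distrib]
  refine prod_eq_one fun j hj => ?_
  have h1 := h0 i hi j (mem_of_mem_erase hj)
  have h2 : x i - x j ≠ 0 := by
    intro h
    exact (mem_erase.1 hj).1 (hinj (mem_of_mem_erase hj) hi (sub_eq_zero.1 h).symm)
  field_simp

theorem Gr_congr (x : ℕ → ℝ) {K L : ℕ → ℕ → A} (n : ℕ) : ∀ {s : Finset ℕ},
    (∀ i ∈ s, ∀ j ∈ s, i ≠ j → K i j = L i j) → Gr x K n s = Gr x L n s := by
  induction n with
  | zero => intro s _; rfl
  | succ n ih =>
    intro s h
    rw [Gr, Gr]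
    congr 1
    refine sum_congr rfl fun i hi => sum_congr rfl fun j hj => ?_
    rw [h i hi j (mem_of_mem_erase hj) (mem_erase.1 hj).1.symm,
      ih fun i' hi' j' hj' hne => h i' (mem_of_mem_erase (mem_of_mem_erase hi')) j'
        (mem_of_mem_erase (mem_of_mem_erase hj')) hne]

/-- the Schur kernel gives one -/
theorem Gr_S (x : ℕ → ℝ) (n : ℕ) : ∀ {s : Finset ℕ}, Set.InjOn x s →
    (∀ i ∈ s, ∀ j ∈ s, x i + x j ≠ 0) → s.card = 2 * n → Gr x (SK A x) n s = 1 := by
  induction n with
  | zero => intro s _ _ _; rfl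
  | succ n ih =>
    intro s hinj h0 hs
    have h1 : ∀ i ∈ s, ∑ j ∈ s.erase i, algebraMap ℝ A (rho x s i * rho x (s.erase i) j) *
        (SK A x i j * Gr x (SK A x) n ((s.erase i).erase j)) = 1 := by
      intro i hi
      have h2 := rho_mul_sum x hinj h0 ⟨n + 1, by omega⟩ hi
      have h3 := congrArg (algebraMap ℝ A) h2
      rw [map_mul, map_sum, map_one, mul_sum] at h3
      rw [← h3]
      refine sum_congr rfl fun j hj => ?_
      rw [ih (hinj.mono (by
          intro z hz
          exact mem_of_mem_erase (mem_of_mem_erase hz)))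
        (fun a ha b hb => h0 a (mem_of_mem_erase (mem_of_mem_erase ha)) b
          (mem_of_mem_erase (mem_of_mem_erase hb))) (by
          rw [card_erase_of_mem hj, card_erase_of_mem hi]; omega), mul_one, SK, ← map_mul,
        ← map_mul]
      congr 1
      ring
    rw [Gr, sum_congr rfl h1, sum_const, hs, nsmul_eq_mul, mul_one]
    have h4 : ((2 * (n + 1) : ℕ) : A) = algebraMap ℝ A (2 * (n + 1)) := by
      rw [← map_natCast (algebraMap ℝ A)]
      congr 1
      push_cast
      ring
    rw [h4, ← map_mul]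
    have h5 : (n : ℝ) + 1 ≠ 0 := by positivity
    rw [one_div_mul_cancel (mul_ne_zero two_ne_zero h5), map_one]

/-- the sum of the Schur kernel and another kernel -/
theorem Gr_add (x : ℕ → ℝ) (B : ℕ → ℕ → A) (n : ℕ) {s : Finset ℕ} (hinj : Set.InjOn x s)
    (h0 : ∀ i ∈ s, ∀ j ∈ s, x i + x j ≠ 0) (hs : s.card = 2 * n) :
    Gr x (fun i j => SK A x i j + B i j) n s = ∑ m ∈ range (n + 1), Gr x B m s := by
  have h1 := TT_pow_one x (fun i j => SK A x i j + B i j) n (subset_refl s)
  have hc : Commute (TT x s B) (TT x s (SK A x)) := TT_comm x s _ _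
  rw [TT_add, add_comm, hc.add_pow] at h1
  have h2 : ∀ m ∈ range (n + 1), (((TT x s B) ^ m * (TT x s (SK A x)) ^ (n - m) *
      ((n.choose m : ℕ) : Module.End A (Finset ℕ → A))) (fun _ => 1)) s =
      algebraMap ℝ A (2 ^ n * n.factorial) * Gr x B m s := by
    intro m hm
    have hmn : m ≤ n := Nat.lt_succ_iff.1 (mem_range.1 hm)
    rw [Module.End.mul_apply, Module.End.mul_apply]
    have e1 : ((n.choose m : ℕ) : Module.End A (Finset ℕ → A)) (fun _ => (1 : A)) =
        ((n.choose m : ℕ) : A) • (fun _ => (1 : A)) := by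
      rw [Module.End.natCast_apply]
      funext z
      simp
    have e2 : ∀ s' ⊆ s, s'.card = 2 * (n - m) →
        ((TT x s (SK A x)) ^ (n - m)) (fun _ => 1) s' =
          (algebraMap ℝ A (2 ^ (n - m) * (n - m).factorial) • (fun _ => (1 : A))) s' := by
      intro s' hs' hc'
      rw [TT_pow_one x (SK A x) (n - m) hs', Gr_S x (n - m) (hinj.mono (by simpa using hs'))
        (fun a ha b hb => h0 a (hs' ha) b (hs' hb)) hc', Pi.smul_apply, smul_eq_mul]
    rw [e1, map_smul, map_smul, Pi.smul_apply, TT_pow_congr x B e2 m s (subset_refl s) (by omega),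
      map_smul, Pi.smul_apply, TT_pow_one x B m (subset_refl s), smul_eq_mul, smul_eq_mul,
      ← map_natCast (algebraMap ℝ A), ← mul_assoc, ← mul_assoc, ← map_mul, ← map_mul]
    congr 2
    rw [← Nat.choose_mul_factorial_mul_factorial hmn]
    push_cast
    have e3 : (2 : ℝ) ^ n = 2 ^ (n - m) * 2 ^ m := by rw [← pow_add]; congr 1; omega
    rw [e3]
    ring
  rw [LinearMap.sum_apply, Finset.sum_apply, sum_congr rfl h2, ← mul_sum] at h1
  have h3 : algebraMap ℝ A (2 ^ n * n.factorial)⁻¹ * algebraMap ℝ A (2 ^ n * n.factorial) = 1 := by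
    rw [← map_mul, inv_mul_cancel₀ (by positivity), map_one]
  have h4 := congrArg (fun z => algebraMap ℝ A (2 ^ n * n.factorial)⁻¹ * z) h1
  simp only [← mul_assoc] at h4
  rw [h3, one_mul, one_mul] at h4
  exact h4.symm

end Pool.Agent.H47.GR
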