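import Pool.Agent.H47.GR.Exp
import Pool.Agent.H47.GR.Sum

/-!
# Power series kernels

`coeff_Gr`: with `K i j = ∑ a b, c a b * (x i * u) ^ a * (x j * u) ^ b` the coefficient of `u ^ d` of
`Gr x K m s` is the sum over the sets `T` of `2 m` exponents with sum `d` of `pf c (dl T) * P x (dl T) s`.
-/

set_option autoImplicit false

namespace Pool.Agent.H47.GR

open Finset Pool.H53.RQ

variable {A : Type} [CommRing A] [Algebra ℝ A]

/-- the points `u * x i` -/
theorem PA_scale (x : ℕ → ℝ) (u : A) (l : List ℕ) : ∀ s : Finset ℕ,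
    PA x (fun i => u * algebraMap ℝ A (x i)) l s = u ^ l.sum * algebraMap ℝ A (P x l s) := by
  induction l with
  | nil => intro s; simp [PA, P]
  | cons a l ih =>
    intro s
    rw [PA, P, map_sum, mul_sum]
    refine sum_congr rfl fun i _ => ?_
    rw [ih, List.sum_cons, mul_pow, map_mul, map_mul, map_pow, pow_add, rho]
    ring

theorem sum_dl (T : Finset ℕ) : (dl T).sum = ∑ t ∈ T, t := by
  unfold dl
  rw [List.sum_reverse]
  rw [(Finset.sort_perm_toList (s := T) (r := (· ≤ ·))).sum_eq, Finset.sum_toList]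

/-- a last exponent zero -/
theorem P_append_zero (x : ℕ → ℝ) (l : List ℕ) : ∀ s : Finset ℕ, Set.InjOn x s →
    (∀ i ∈ s, x i ≠ 0) → P x (l ++ [0]) s = if Odd (s.card - l.length) then P x l s else 0 := by
  induction l with
  | nil =>
    intro s hinj h0
    have h := sum_rho x s hinj h0
    rw [List.nil_append, List.length_nil, Nat.sub_zero]
    simp only [P, pow_zero, one_mul, mul_one]
    exact h
  | cons a l ih =>
    intro s hinj h0
    rw [List.cons_append, P, P]
    have h1 : ∀ i ∈ s, P x (l ++ [0]) (s.erase i) =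
        if Odd (s.card - (a :: l).length) then P x l (s.erase i) else 0 := by
      intro i hi
      have e : (s.erase i).card - l.length = s.card - (a :: l).length := by
        rw [card_erase_of_mem hi, List.length_cons]
        omega
      rw [ih _ (hinj.mono (by simp)) (fun j hj => h0 j (mem_of_mem_erase hj)), e]
    rw [sum_congr rfl fun i hi => by rw [h1 i hi]]
    split_ifs
    · rfl
    · simp

/-- the power series kernel of an array -/
noncomputable def BK (x : ℕ → ℝ) (c : ℕ → ℕ → ℝ) (i j : ℕ) : PowerSeries ℝ :=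
  PowerSeries.mk fun d => ∑ p ∈ antidiagonal d, c p.1 p.2 * x i ^ p.1 * x j ^ p.2

/-- the coefficients up to `d` of `Gr` only see the coefficients up to `d` of the kernel -/
theorem coeff_Gr_congr (x : ℕ → ℝ) {K L : ℕ → ℕ → PowerSeries ℝ} {D : ℕ}
    (h : ∀ i j, ∀ d ≤ D, PowerSeries.coeff d (K i j) = PowerSeries.coeff d (L i j)) (m : ℕ) :
    ∀ (s : Finset ℕ), ∀ d ≤ D, PowerSeries.coeff d (Gr x K m s) = PowerSeries.coeff d (Gr x L m s) := by
  induction m with
  | zero => intro s d _; rfl
  | succ m ih =>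
    intro s d hd
    have e : ∀ (r : ℝ) (f : PowerSeries ℝ), PowerSeries.coeff d (algebraMap ℝ (PowerSeries ℝ) r * f) =
        r * PowerSeries.coeff d f := by
      intro r f
      rw [← Algebra.smul_def, PowerSeries.coeff_smul, smul_eq_mul]
    rw [Gr, Gr, e, e, map_sum, map_sum]
    congr 1
    refine sum_congr rfl fun i _ => ?_
    rw [map_sum, map_sum]
    refine sum_congr rfl fun j _ => ?_
    rw [e, e, PowerSeries.coeff_mul, PowerSeries.coeff_mul]
    congr 1
    refine sum_congr rfl fun p hp => ?_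
    have hp' := mem_antidiagonal.1 hp
    rw [h i j p.1 (by omega), ih _ p.2 (by omega)]

theorem coeff_kernel (x : ℕ → ℝ) (c : ℕ → ℕ → ℝ) (i j : ℕ) {d L : ℕ} (hd : d < L) :
    PowerSeries.coeff d (∑ a ∈ range L, ∑ b ∈ range L, algebraMap ℝ (PowerSeries ℝ) (c a b) *
      (PowerSeries.X * algebraMap ℝ (PowerSeries ℝ) (x i)) ^ a *
      (PowerSeries.X * algebraMap ℝ (PowerSeries ℝ) (x j)) ^ b) =
    PowerSeries.coeff d (BK x c i j) := by
  have e : ∀ a b : ℕ, algebraMap ℝ (PowerSeries ℝ) (c a b) *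
      (PowerSeries.X * algebraMap ℝ (PowerSeries ℝ) (x i)) ^ a *
      (PowerSeries.X * algebraMap ℝ (PowerSeries ℝ) (x j)) ^ b =
      (c a b * x i ^ a * x j ^ b) • (PowerSeries.X : PowerSeries ℝ) ^ (a + b) := by
    intro a b
    rw [Algebra.smul_def, map_mul, map_mul, map_pow, map_pow, mul_pow, mul_pow, pow_add]
    ring
  rw [BK, PowerSeries.coeff_mk, map_sum]
  simp only [map_sum, e, PowerSeries.coeff_smul, PowerSeries.coeff_X_pow, smul_eq_mul, mul_ite,
    mul_one, mul_zero]
  rw [← sum_product' (range L) (range L)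
    (fun a b => if d = a + b then c a b * x i ^ a * x j ^ b else 0), ← sum_filter]
  refine sum_congr ?_ fun p _ => rfl
  ext p
  rw [mem_filter, mem_product, mem_range, mem_range, HasAntidiagonal.mem_antidiagonal]
  omega

/-- the coefficients of the sum over pairs of nodes -/
theorem coeff_Gr (x : ℕ → ℝ) (c : ℕ → ℕ → ℝ) (hc : ∀ a b, c a b = -c b a) (m d : ℕ)
    (s : Finset ℕ) : PowerSeries.coeff d (Gr x (BK x c) m s) =
      ∑ T ∈ ((range (d + 1)).powersetCard (2 * m)).filter (fun T => ∑ t ∈ T, t = d),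
        pf c (dl T) * P x (dl T) s := by
  have h1 := coeff_Gr_congr x (D := d) (K := fun i j => ∑ a ∈ range (d + 1), ∑ b ∈ range (d + 1),
      algebraMap ℝ (PowerSeries ℝ) (c a b) *
      (PowerSeries.X * algebraMap ℝ (PowerSeries ℝ) (x i)) ^ a *
      (PowerSeries.X * algebraMap ℝ (PowerSeries ℝ) (x j)) ^ b) (L := BK x c)
    (fun i j d' hd' => coeff_kernel x c i j (by omega)) m s d le_rfl
  rw [← h1, Gr_kernel x (fun i => PowerSeries.X * algebraMap ℝ (PowerSeries ℝ) (x i)) c hc, map_sum,
    sum_filter]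
  refine sum_congr rfl fun T _ => ?_
  rw [PA_scale, mul_left_comm, ← map_mul, sum_dl, mul_comm, ← Algebra.smul_def,
    PowerSeries.coeff_smul, PowerSeries.coeff_X_pow, smul_eq_mul]
  split_ifs with h2 h3 h3
  · rw [mul_one]
  · exact absurd h2.symm h3
  · exact absurd h3.symm h2
  · rw [mul_zero]

end Pool.Agent.H47.GR
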