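import Pool.Agent.H47.GR.Rho

/-!
# The operators of the pairs of nodes commute
-/

set_option autoImplicit false

namespace Pool.Agent.H47.GR

open Finset

variable {A : Type} [CommRing A] [Algebra ℝ A]

theorem U_anti (x : ℕ → ℝ) (i j : ℕ) :
    (U x i * U x j : Module.End A (Finset ℕ → A)) = -(U x j * U x i) := by
  ext f s
  rw [LinearMap.neg_apply, Pi.neg_apply, Module.End.mul_apply, Module.End.mul_apply, U_apply,
    U_apply, U_apply, U_apply]
  rcases eq_or_ne i j with rfl | hij
  · simp
  · by_cases hi : i ∈ s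
    · by_cases hj : j ∈ s
      · rw [if_pos hi, if_pos (mem_erase.2 ⟨hij.symm, hj⟩), if_pos hj,
          if_pos (mem_erase.2 ⟨hij, hi⟩), erase_right_comm, ← mul_assoc, ← mul_assoc, ← map_mul,
          ← map_mul, rho_flip x hi hj hij, map_neg]
        ring
      · have : j ∉ s.erase i := fun h => hj (mem_of_mem_erase h)
        rw [if_pos hi, if_neg this, if_neg hj]
        simp
    · have : i ∉ s.erase j := fun h => hi (mem_of_mem_erase h)
      rw [if_neg hi, if_neg this]
      simp

theorem comm_of_anti {M : Type} [Ring M] {a b c d : M} (h1 : a * c = -(c * a))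
    (h2 : a * d = -(d * a)) (h3 : b * c = -(c * b)) (h4 : b * d = -(d * b)) :
    Commute (a * b) (c * d) := by
  show a * b * (c * d) = c * d * (a * b)
  calc a * b * (c * d) = a * (b * c) * d := by noncomm_ring
    _ = -(a * c * (b * d)) := by rw [h3]; noncomm_ring
    _ = -(-(c * a) * -(d * b)) := by rw [h1, h4]
    _ = -(c * (a * d) * b) := by noncomm_ring
    _ = c * d * (a * b) := by rw [h2]; noncomm_ring

theorem TT_comm (x : ℕ → ℝ) (W : Finset ℕ) (K L : ℕ → ℕ → A) : Commute (TT x W K) (TT x W L) := by
  unfold TT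
  refine Commute.sum_left _ _ _ fun i _ => Commute.sum_left _ _ _ fun j _ =>
    Commute.sum_right _ _ _ fun k _ => Commute.sum_right _ _ _ fun l _ => ?_
  refine Commute.smul_left (Commute.smul_right ?_ _) _
  exact comm_of_anti (U_anti x i k) (U_anti x i l) (U_anti x j k) (U_anti x j l)

theorem TT_add (x : ℕ → ℝ) (W : Finset ℕ) (K L : ℕ → ℕ → A) :
    TT x W (fun i j => K i j + L i j) = TT x W K + TT x W L := by
  unfold TT
  rw [← sum_add_distrib]
  refine sum_congr rfl fun i _ => ?_
  rw [← sum_add_distrib]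
  exact sum_congr rfl fun j _ => add_smul _ _ _

/-- the operator on the subsets of `W` -/
theorem TT_apply (x : ℕ → ℝ) {W s : Finset ℕ} (hs : s ⊆ W) (K : ℕ → ℕ → A) (f : Finset ℕ → A) :
    TT x W K f s = ∑ i ∈ s, ∑ j ∈ s.erase i,
      algebraMap ℝ A (rho x s i * rho x (s.erase i) j) * (K i j * f ((s.erase i).erase j)) := by
  have h : TT x W K f s = ∑ i ∈ W, ∑ j ∈ W, K i j * (U x i (U x j f)) s := by
    unfold TT
    simp only [LinearMap.sum_apply, Finset.sum_apply, LinearMap.smul_apply, Pi.smul_apply,
      smul_eq_mul, Module.End.mul_apply]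
  rw [h, ← sum_subset hs]
  · refine sum_congr rfl fun i hi => ?_
    rw [← sum_subset ((erase_subset i s).trans hs)]
    · refine sum_congr rfl fun j hj => ?_
      rw [U_apply, if_pos hi, U_apply, if_pos hj, map_mul]
      ring
    · intro j _ hj
      rw [U_apply, if_pos hi, U_apply, if_neg hj]
      ring
  · intro i _ hi
    refine sum_eq_zero fun j _ => ?_
    rw [U_apply, if_neg hi, mul_zero]

/-- the recursion through the powers of the operator -/
theorem TT_pow_one (x : ℕ → ℝ) (K : ℕ → ℕ → A) (n : ℕ) : ∀ {W s : Finset ℕ}, s ⊆ W →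
    ((TT x W K) ^ n) (fun _ => 1) s = algebraMap ℝ A (2 ^ n * n.factorial) * Gr x K n s := by
  induction n with
  | zero => intro W s _; simp [Gr]
  | succ n ih =>
    intro W s hs
    rw [pow_succ', Module.End.mul_apply, TT_apply x hs, Gr, ← mul_assoc, ← map_mul, mul_sum]
    refine sum_congr rfl fun i hi => ?_
    rw [mul_sum]
    refine sum_congr rfl fun j hj => ?_
    rw [ih (((erase_subset _ _).trans (erase_subset _ _)).trans hs)]
    have e : algebraMap ℝ A (2 ^ (n + 1) * (n + 1).factorial * (1 / (2 * (n + 1)))) =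
        algebraMap ℝ A (2 ^ n * n.factorial) := by
      congr 1
      have : (n : ℝ) + 1 ≠ 0 := by positivity
      rw [Nat.factorial_succ]
      push_cast
      field_simp
      ring
    rw [e]
    ring

/-- the powers of the operator only see the subsets of the right size -/
theorem TT_pow_congr (x : ℕ → ℝ) (K : ℕ → ℕ → A) {W : Finset ℕ} {f g : Finset ℕ → A} {k : ℕ}
    (h : ∀ s ⊆ W, s.card = k → f s = g s) (n : ℕ) : ∀ s ⊆ W, s.card = k + 2 * n →
    ((TT x W K) ^ n) f s = ((TT x W K) ^ n) g s := by
  induction n with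
  | zero => intro s hs hk; simpa using h s hs (by simpa using hk)
  | succ n ih =>
    intro s hs hk
    rw [pow_succ', Module.End.mul_apply, Module.End.mul_apply, TT_apply x hs, TT_apply x hs]
    refine sum_congr rfl fun i hi => sum_congr rfl fun j hj => ?_
    rw [ih _ (((erase_subset _ _).trans (erase_subset _ _)).trans hs)]
    rw [card_erase_of_mem hj, card_erase_of_mem hi]
    omega

end Pool.Agent.H47.GR
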