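import Pool.Agent.H53.RQ.Defs

/-!
# The recursion over pairs of nodes

`rho x s i = ∏ j ∈ s \ i, (x i + x j) / (x i - x j)`, `U x i` the operator
`f ↦ (s ↦ rho x s i * f (s \ i))`, `Gr x K n s` the sum over `n` ordered pairs of nodes divided by
`2 ^ n * n!`.
-/

set_option autoImplicit false

namespace Pool.Agent.H47.GR

open Finset

/-- the weight of the node `i` in the set `s` -/
noncomputable def rho (x : ℕ → ℝ) (s : Finset ℕ) (i : ℕ) : ℝ :=
  ∏ j ∈ s.erase i, (x i + x j) / (x i - x j)

variable {A : Type} [CommRing A] [Algebra ℝ A]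

/-- the sum over the pairs of nodes of `s`, divided by `2 ^ n * n!` -/
noncomputable def Gr (x : ℕ → ℝ) (K : ℕ → ℕ → A) : ℕ → Finset ℕ → A
  | 0, _ => 1
  | n + 1, s => algebraMap ℝ A (1 / (2 * (n + 1))) * ∑ i ∈ s, ∑ j ∈ s.erase i,
      algebraMap ℝ A (rho x s i * rho x (s.erase i) j) *
        (K i j * Gr x K n ((s.erase i).erase j))

/-- the Schur P polynomial with the points `y i` in an algebra and the weights of `x` -/
noncomputable def PA (x : ℕ → ℝ) (y : ℕ → A) : List ℕ → Finset ℕ → A
  | [], _ => 1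
  | a :: l, s => ∑ i ∈ s, algebraMap ℝ A (rho x s i) * (y i ^ a * PA x y l (s.erase i))

/-- removal of one node -/
noncomputable def U (x : ℕ → ℝ) (i : ℕ) : Module.End A (Finset ℕ → A) where
  toFun f s := if i ∈ s then algebraMap ℝ A (rho x s i) * f (s.erase i) else 0
  map_add' f g := by
    funext s
    simp only [Pi.add_apply]
    split_ifs
    · ring
    · ring
  map_smul' c f := by
    funext s
    simp only [Pi.smul_apply, RingHom.id_apply, smul_eq_mul]
    split_ifs
    · ring
    · ring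

theorem U_apply (x : ℕ → ℝ) (i : ℕ) (f : Finset ℕ → A) (s : Finset ℕ) :
    U x i f s = if i ∈ s then algebraMap ℝ A (rho x s i) * f (s.erase i) else 0 := rfl

/-- the operator of the sum over the pairs of nodes of `W` -/
noncomputable def TT (x : ℕ → ℝ) (W : Finset ℕ) (K : ℕ → ℕ → A) : Module.End A (Finset ℕ → A) :=
  ∑ i ∈ W, ∑ j ∈ W, K i j • (U x i * U x j)

/-- the operator of one exponent -/
noncomputable def V (x : ℕ → ℝ) (W : Finset ℕ) (y : ℕ → A) (a : ℕ) :
    Module.End A (Finset ℕ → A) :=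
  ∑ i ∈ W, y i ^ a • U x i

end Pool.Agent.H47.GR
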