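import Pool.Agent.H53.RQ.Defs

/-!
# Decreasing lists and strictly decreasing functions
-/

set_option autoImplicit false

namespace Pool.Agent.H47.GR

open Finset Pool.H53.RQ

theorem dl_sorted (s : Finset ℕ) : (dl s).SortedGT := by
  unfold dl
  rw [List.sortedGT_reverse]
  exact s.sortedLT_sort

theorem dl_toFinset (s : Finset ℕ) : (dl s).toFinset = s := by
  unfold dl
  rw [List.toFinset_reverse, Finset.sort_toFinset]

theorem dl_length (s : Finset ℕ) : (dl s).length = s.card := by
  unfold dl
  rw [List.length_reverse, Finset.length_sort]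

theorem dl_eq {s : Finset ℕ} {l : List ℕ} (h : l.SortedGT) (hs : l.toFinset = s) : dl s = l := by
  have hp : (dl s).Perm l := by
    rw [List.perm_ext_iff_of_nodup (dl_sorted s).nodup h.nodup]
    intro a
    rw [← List.mem_toFinset, ← List.mem_toFinset, dl_toFinset, hs]
  exact hp.eq_of_sortedGE (dl_sorted s).sortedGE h.sortedGE

theorem mem_dl {s : Finset ℕ} {a : ℕ} : a ∈ dl s ↔ a ∈ s := by
  rw [← List.mem_toFinset, dl_toFinset]

theorem dl_image {r L : ℕ} (κ : Fin r → Fin L) (hκ : StrictAnti κ) :
    dl (univ.image (fun b => (κ b : ℕ))) = List.ofFn (fun b => (κ b : ℕ)) := by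
  refine dl_eq ?_ ?_
  · rw [List.sortedGT_ofFn_iff]
    exact fun a b hab => Fin.lt_def.1 (hκ hab)
  · ext a
    simp

theorem sum_strictAnti {M : Type} [AddCommMonoid M] (r L : ℕ) (f : List ℕ → M) :
    ∑ κ ∈ univ.filter (fun κ : Fin r → Fin L => StrictAnti κ), f (List.ofFn (fun b => (κ b : ℕ))) =
      ∑ T ∈ (range L).powersetCard r, f (dl T) := by
  refine sum_bij (fun κ _ => univ.image (fun b => (κ b : ℕ))) ?_ ?_ ?_ ?_
  · intro κ hκ
    have hs : StrictAnti κ := (mem_filter.1 hκ).2
    rw [mem_powersetCard]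
    refine ⟨?_, ?_⟩
    · intro a ha
      obtain ⟨b, _, rfl⟩ := mem_image.1 ha
      exact mem_range.2 (κ b).2
    · rw [card_image_of_injective _ (fun a b h => hs.injective (Fin.ext h)), card_univ,
        Fintype.card_fin]
  · intro κ hκ κ' hκ' h
    have h1 := dl_image κ (mem_filter.1 hκ).2
    have h2 := dl_image κ' (mem_filter.1 hκ').2
    have h3 : List.ofFn (fun b => (κ b : ℕ)) = List.ofFn (fun b => (κ' b : ℕ)) := by
      rw [← h1, ← h2]
      exact congrArg dl h
    have h4 := List.ofFn_injective h3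
    funext b
    exact Fin.ext (congrFun h4 b)
  · intro T hT
    rw [mem_powersetCard] at hT
    have hl : (dl T).length = r := by rw [dl_length, hT.2]
    have hL : ∀ b : Fin r, (dl T).get (b.cast hl.symm) < L := by
      intro b
      exact mem_range.1 (hT.1 (mem_dl.1 (List.get_mem _ _)))
    refine ⟨fun b => ⟨(dl T).get (b.cast hl.symm), hL b⟩, ?_, ?_⟩
    · rw [mem_filter]
      refine ⟨mem_univ _, fun a b hab => ?_⟩
      rw [Fin.lt_def]
      exact (dl_sorted T).strictAnti_get (Fin.lt_def.2 (by simpa using Fin.lt_def.1 hab))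
    · ext a
      rw [mem_image]
      constructor
      · rintro ⟨b, _, rfl⟩
        exact mem_dl.1 (List.get_mem _ _)
      · intro ha
        obtain ⟨k, hk⟩ := List.get_of_mem (mem_dl.2 ha)
        exact ⟨k.cast hl, mem_univ _, by simpa using hk⟩
  · intro κ hκ
    show f _ = f _
    rw [dl_image κ (mem_filter.1 hκ).2]

end Pool.Agent.H47.GR
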