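import Pool.Agent.H47.GR.Perm
import Pool.Agent.H47.GR.Dl
import Pool.Agent.H47.PF.Rec

/-!
# The expansion of the sum over pairs of nodes in Schur P polynomials
-/

set_option autoImplicit false

namespace Pool.Agent.H47.GR

open Finset Equiv Pool.H53.RQ Pool.Agent.H47.PF

variable {A : Type} [CommRing A] [Algebra ℝ A]

theorem prod_ofFn_smul {M : Type} [Ring M] [Algebra A M] : ∀ (m : ℕ) (c : Fin m → A)
    (X : Fin m → M), (List.ofFn (fun i => c i • X i)).prod = (∏ i, c i) • (List.ofFn X).prod := by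
  intro m
  induction m with
  | zero => intro c X; simp
  | succ m ih =>
    intro c X
    rw [List.ofFn_succ, List.prod_cons, ih, List.ofFn_succ, List.prod_cons, Fin.prod_univ_succ,
      smul_mul_smul_comm]

theorem prod_ofFn_pairs {M : Type} [Ring M] (m : ℕ) (F : Fin (2 * m) → M) :
    (List.ofFn F).prod = (List.ofFn (fun i : Fin m => F (p0 i) * F (p1 i))).prod := by
  rw [List.ofFn_mul', List.prod_flatten, List.map_ofFn]
  congr 1
  congr 1
  funext i
  rw [Function.comp_apply, List.ofFn_succ, List.ofFn_succ, List.ofFn_zero, List.prod_cons,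
    List.prod_cons, List.prod_nil, mul_one]
  rfl

theorem TT_pow_expand (x : ℕ → ℝ) (W : Finset ℕ) (y : ℕ → A) {L : ℕ} (c : ℕ → ℕ → A) (m : ℕ) :
    (TT x W (fun i j => ∑ p : Fin L × Fin L, c p.1 p.2 * y i ^ (p.1 : ℕ) * y j ^ (p.2 : ℕ))) ^ m =
      ∑ κ : Fin (2 * m) → Fin L, (∏ i : Fin m, c (κ (p0 i)) (κ (p1 i))) •
        (List.ofFn (fun b => V x W y (κ b))).prod := by
  rw [TT_kernel, sum_pow_ofFn, ← Equiv.sum_comp (fnPairs m (Fin L))]
  refine sum_congr rfl fun κ _ => ?_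
  rw [prod_ofFn_smul m (fun i => c (fnPairs m (Fin L) κ i).1 (fnPairs m (Fin L) κ i).2)
    (fun i => V x W y (fnPairs m (Fin L) κ i).1 * V x W y (fnPairs m (Fin L) κ i).2),
    prod_ofFn_pairs m (fun b => V x W y (κ b))]
  simp only [fnPairs_apply]

theorem pfs_map (m : ℕ) (c : Fin (2 * m) → Fin (2 * m) → ℝ) :
    pfs (fun i j => algebraMap ℝ A (c i j)) = algebraMap ℝ A (pfs c) := by
  unfold pfs
  rw [map_sum]
  refine sum_congr rfl fun σ _ => ?_
  rw [map_mul, map_prod, map_intCast]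

/-- the expansion in P polynomials, for the products of the operators -/
theorem TT_pow_P (x : ℕ → ℝ) (y : ℕ → A) (c : ℕ → ℕ → ℝ) (hc : ∀ a b, c a b = -c b a) (L m : ℕ)
    (s : Finset ℕ) :
    ((TT x s (fun i j => ∑ p : Fin L × Fin L, algebraMap ℝ A (c p.1 p.2) * y i ^ (p.1 : ℕ) *
      y j ^ (p.2 : ℕ))) ^ m) (fun _ => 1) s =
      algebraMap ℝ A (2 ^ m * m.factorial) * ∑ T ∈ (range L).powersetCard (2 * m),
        algebraMap ℝ A (pf c (dl T)) * PA x y (dl T) s := by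
  have h1 := TT_pow_expand x s y (L := L) (fun a b => algebraMap ℝ A (c a b)) m
  rw [h1, LinearMap.sum_apply, Finset.sum_apply]
  have h2 : ∀ κ : Fin (2 * m) → Fin L,
      ((∏ i : Fin m, algebraMap ℝ A (c (κ (p0 i)) (κ (p1 i)))) •
        (List.ofFn (fun b => V x s y (κ b))).prod) (fun _ => 1) s =
      (∏ i : Fin m, algebraMap ℝ A (c (κ (p0 i)) (κ (p1 i)))) *
        PA x y (List.ofFn (fun b => (κ b : ℕ))) s := by
    intro κ
    rw [LinearMap.smul_apply, Pi.smul_apply, smul_eq_mul, ← V_prod x y _ s (subset_refl s),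
      List.map_ofFn]
    rfl
  rw [sum_congr rfl fun κ _ => h2 κ]
  have hQ : Algebra ℚ A := Algebra.compHom A (algebraMap ℚ ℝ)
  rw [sum_group (R := A) (fun κ : Fin (2 * m) → Fin L =>
      ∏ i : Fin m, algebraMap ℝ A (c (κ (p0 i)) (κ (p1 i))))
    (fun κ => PA x y (List.ofFn (fun b => (κ b : ℕ))) s)
    (fun κ τ => PA_perm x y (fun b => (κ b : ℕ)) τ s)]
  have h3 : ∀ κ ∈ univ.filter (fun κ : Fin (2 * m) → Fin L => StrictAnti κ),
      (∑ τ : Perm (Fin (2 * m)), sg A τ *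
        ∏ i : Fin m, algebraMap ℝ A (c ((κ ∘ τ) (p0 i)) ((κ ∘ τ) (p1 i)))) *
        PA x y (List.ofFn (fun b => (κ b : ℕ))) s =
      (fun l : List ℕ => algebraMap ℝ A (2 ^ m * m.factorial) *
        (algebraMap ℝ A (pf c l) * PA x y l s)) (List.ofFn (fun b => (κ b : ℕ))) := by
    intro κ _
    have e1 : ∑ τ : Perm (Fin (2 * m)), sg A τ *
        ∏ i : Fin m, algebraMap ℝ A (c ((κ ∘ τ) (p0 i)) ((κ ∘ τ) (p1 i))) =
        pfs (fun i j => algebraMap ℝ A (c (κ i) (κ j))) := rfl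
    have e2 : ∀ i : Fin (2 * m), (List.ofFn (fun b => (κ b : ℕ))).getD i 0 = κ i := by
      intro i
      rw [List.getD_eq_getElem?_getD, List.getElem?_ofFn]
      simp
    have e3 := pf_eq_pfs c hc m (List.ofFn (fun b => (κ b : ℕ))) (by simp)
    simp only [e2] at e3
    rw [e1, pfs_map]
    show _ = algebraMap ℝ A (2 ^ m * m.factorial) * (algebraMap ℝ A (pf c _) * _)
    rw [e3, ← mul_assoc, ← map_mul]
    congr 2
    have : (2 : ℝ) ^ m * m.factorial ≠ 0 := by positivity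
    field_simp
  rw [sum_congr rfl h3, sum_strictAnti (2 * m) L (fun l : List ℕ =>
    algebraMap ℝ A (2 ^ m * m.factorial) * (algebraMap ℝ A (pf c l) * PA x y l s)), mul_sum]

/-- the expansion in P polynomials -/
theorem Gr_kernel (x : ℕ → ℝ) (y : ℕ → A) (c : ℕ → ℕ → ℝ) (hc : ∀ a b, c a b = -c b a) (L m : ℕ)
    (s : Finset ℕ) :
    Gr x (fun i j => ∑ a ∈ range L, ∑ b ∈ range L, algebraMap ℝ A (c a b) * y i ^ a * y j ^ b) m s =
      ∑ T ∈ (range L).powersetCard (2 * m), algebraMap ℝ A (pf c (dl T)) * PA x y (dl T) s := by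
  have hK : (fun i j => ∑ a ∈ range L, ∑ b ∈ range L,
      algebraMap ℝ A (c a b) * y i ^ a * y j ^ b) = (fun i j => ∑ p : Fin L × Fin L,
        algebraMap ℝ A (c p.1 p.2) * y i ^ (p.1 : ℕ) * y j ^ (p.2 : ℕ)) := by
    funext i j
    rw [Fintype.sum_prod_type, Finset.sum_range]
    refine sum_congr rfl fun a _ => ?_
    rw [Finset.sum_range]
  rw [hK]
  have h1 := TT_pow_one x (fun i j => ∑ p : Fin L × Fin L,
    algebraMap ℝ A (c p.1 p.2) * y i ^ (p.1 : ℕ) * y j ^ (p.2 : ℕ)) m (subset_refl s)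
  rw [TT_pow_P x y c hc L m s] at h1
  have h3 : algebraMap ℝ A (2 ^ m * m.factorial)⁻¹ * algebraMap ℝ A (2 ^ m * m.factorial) = 1 := by
    rw [← map_mul, inv_mul_cancel₀ (by positivity), map_one]
  have h4 := congrArg (fun z => algebraMap ℝ A (2 ^ m * m.factorial)⁻¹ * z) h1
  simp only [← mul_assoc] at h4
  rw [h3, one_mul, one_mul] at h4
  exact h4.symm

end Pool.Agent.H47.GR
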