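import Pool.Agent.H47.GR.Comm
import Pool.Agent.H47.PF.Exp

/-!
# Products of anticommuting operators and the Schur P polynomials
-/

set_option autoImplicit false

namespace Pool.Agent.H47.GR

open Finset Equiv

variable {A : Type} [CommRing A] [Algebra ℝ A]

theorem prod_ofFn_swap {M : Type} [Ring M] : ∀ (n : ℕ) (F : Fin (n + 1) → M),
    (∀ a b, F a * F b = -(F b * F a)) → ∀ i : Fin n,
      (List.ofFn (F ∘ swap i.castSucc i.succ)).prod = -(List.ofFn F).prod := by
  intro n
  induction n with
  | zero => intro F _ i; exact i.elim0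
  | succ n ih =>
    intro F hF i
    refine Fin.cases ?_ (fun j => ?_) i
    · rw [List.ofFn_succ, List.ofFn_succ, List.ofFn_succ (f := F), List.ofFn_succ,
        List.prod_cons, List.prod_cons, List.prod_cons, List.prod_cons, ← mul_assoc, ← mul_assoc]
      have e1 : (F ∘ swap (Fin.castSucc 0) (Fin.succ 0)) 0 = F 1 := by
        rw [Function.comp_apply]
        congr 1
      have e2 : (F ∘ swap (Fin.castSucc 0) (Fin.succ 0)) (Fin.succ 0) = F 0 := by
        rw [Function.comp_apply, swap_apply_right]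
        rfl
      have e3 : ∀ k : Fin n, (F ∘ swap (Fin.castSucc 0) (Fin.succ 0)) k.succ.succ =
          F k.succ.succ := by
        intro k
        rw [Function.comp_apply, swap_apply_of_ne_of_ne]
        · intro h
          have := Fin.ext_iff.1 h
          simp at this
        · intro h
          exact absurd (Fin.succ_inj.1 h) (Fin.succ_ne_zero _)
      rw [e1, e2, hF 1 0]
      simp only [e3, neg_mul]
      rfl
    · rw [List.ofFn_succ, List.ofFn_succ (f := F), List.prod_cons, List.prod_cons]
      have e1 : (F ∘ swap (Fin.castSucc j.succ) j.succ.succ) 0 = F 0 := by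
        rw [Function.comp_apply, swap_apply_of_ne_of_ne]
        · intro h
          have := Fin.ext_iff.1 h
          simp at this
        · exact (Fin.succ_ne_zero _).symm
      have e2 : (fun k : Fin (n + 1) => (F ∘ swap (Fin.castSucc j.succ) j.succ.succ) k.succ) =
          (fun k => F k.succ) ∘ swap j.castSucc j.succ := by
        funext k
        rw [Function.comp_apply, Function.comp_apply]
        congr 1
        have hc : (Fin.castSucc j.succ : Fin (n + 2)) = j.castSucc.succ := rfl
        rw [hc]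
        rcases eq_or_ne k j.castSucc with rfl | h1
        · rw [swap_apply_left, swap_apply_left]
        · rcases eq_or_ne k j.succ with rfl | h2
          · rw [swap_apply_right, swap_apply_right]
          · rw [swap_apply_of_ne_of_ne h1 h2, swap_apply_of_ne_of_ne]
            · exact fun h => h1 (Fin.succ_inj.1 h)
            · exact fun h => h2 (Fin.succ_inj.1 h)
      rw [e1, e2, ih (fun k => F k.succ) (fun a b => hF _ _) j, mul_neg]

theorem prod_ofFn_perm {M : Type} [Ring M] {n : ℕ} (F : Fin n → M)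
    (hF : ∀ a b, F a * F b = -(F b * F a)) (τ : Perm (Fin n)) :
    (List.ofFn (F ∘ τ)).prod = ((Equiv.Perm.sign τ : ℤˣ) : ℤ) • (List.ofFn F).prod := by
  cases n with
  | zero =>
    have : τ = 1 := Subsingleton.elim _ _
    subst this
    simp
  | succ n =>
    have hτ : τ ∈ (⊤ : Submonoid (Perm (Fin (n + 1)))) := Submonoid.mem_top _
    rw [← Equiv.Perm.mclosure_swap_castSucc_succ] at hτ
    have key : ∀ F : Fin (n + 1) → M, (∀ a b, F a * F b = -(F b * F a)) →
        (List.ofFn (F ∘ τ)).prod = ((Equiv.Perm.sign τ : ℤˣ) : ℤ) • (List.ofFn F).prod := by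
      induction hτ using Submonoid.closure_induction with
      | mem z hz =>
        obtain ⟨i, rfl⟩ := hz
        intro F hF
        have hne : i.castSucc ≠ i.succ := (Fin.castSucc_lt_succ).ne
        simp only [Equiv.Perm.sign_swap hne]
        rw [prod_ofFn_swap n F hF i]
        simp
      | one => intro F _; simp
      | mul σ τ _ _ h1 h2 =>
        intro F hF
        have e : F ∘ ⇑(σ * τ) = (F ∘ σ) ∘ τ := rfl
        rw [e, h2 (F ∘ σ) (fun a b => hF _ _), h1 F hF, smul_smul, Equiv.Perm.sign_mul]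
        push_cast
        rw [mul_comm]
    exact key F hF

theorem V_anti (x : ℕ → ℝ) (W : Finset ℕ) (y : ℕ → A) (a b : ℕ) :
    V x W y a * V x W y b = -(V x W y b * V x W y a) := by
  unfold V
  rw [sum_mul_sum, sum_mul_sum, ← sum_neg_distrib, sum_comm]
  refine sum_congr rfl fun i _ => ?_
  rw [← sum_neg_distrib]
  refine sum_congr rfl fun j _ => ?_
  rw [smul_mul_smul_comm, smul_mul_smul_comm, U_anti x j i, smul_neg, mul_comm]

theorem V_apply (x : ℕ → ℝ) {W s : Finset ℕ} (hs : s ⊆ W) (y : ℕ → A) (a : ℕ) (f : Finset ℕ → A) :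
    V x W y a f s = ∑ i ∈ s, algebraMap ℝ A (rho x s i) * (y i ^ a * f (s.erase i)) := by
  have h : V x W y a f s = ∑ i ∈ W, y i ^ a * U x i f s := by
    unfold V
    simp only [LinearMap.sum_apply, Finset.sum_apply, LinearMap.smul_apply, Pi.smul_apply,
      smul_eq_mul]
  rw [h, ← sum_subset hs]
  · refine sum_congr rfl fun i hi => ?_
    rw [U_apply, if_pos hi]
    ring
  · intro i _ hi
    rw [U_apply, if_neg hi, mul_zero]

theorem V_prod (x : ℕ → ℝ) {W : Finset ℕ} (y : ℕ → A) (l : List ℕ) : ∀ s ⊆ W,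
    (l.map (V x W y)).prod (fun _ => 1) s = PA x y l s := by
  induction l with
  | nil => intro s _; simp [PA]
  | cons a l ih =>
    intro s hs
    rw [List.map_cons, List.prod_cons, Module.End.mul_apply, V_apply x hs, PA]
    refine sum_congr rfl fun i _ => ?_
    rw [ih _ ((erase_subset _ _).trans hs)]

theorem PA_perm (x : ℕ → ℝ) (y : ℕ → A) {n : ℕ} (κ : Fin n → ℕ) (τ : Perm (Fin n))
    (s : Finset ℕ) : PA x y (List.ofFn (κ ∘ τ)) s =
      Pool.Agent.H47.PF.sg A τ * PA x y (List.ofFn κ) s := by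
  rw [← V_prod x y _ s (subset_refl s), ← V_prod x y _ s (subset_refl s), List.map_ofFn,
    List.map_ofFn, ← Function.comp_assoc,
    prod_ofFn_perm (V x s y ∘ κ) (fun a b => V_anti x s y _ _) τ, Pool.Agent.H47.PF.sg,
    LinearMap.smul_apply, Pi.smul_apply, zsmul_eq_mul]

theorem TT_kernel (x : ℕ → ℝ) (W : Finset ℕ) (y : ℕ → A) {L : ℕ} (c : ℕ → ℕ → A) :
    TT x W (fun i j => ∑ p : Fin L × Fin L, c p.1 p.2 * y i ^ (p.1 : ℕ) * y j ^ (p.2 : ℕ)) =
      ∑ p : Fin L × Fin L, c p.1 p.2 • (V x W y p.1 * V x W y p.2) := by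
  unfold TT V
  have h : ∀ p : Fin L × Fin L, c p.1 p.2 • ((∑ i ∈ W, y i ^ (p.1 : ℕ) • U x i) *
      (∑ j ∈ W, y j ^ (p.2 : ℕ) • U x j) : Module.End A (Finset ℕ → A)) =
      ∑ i ∈ W, ∑ j ∈ W, (c p.1 p.2 * y i ^ (p.1 : ℕ) * y j ^ (p.2 : ℕ)) • (U x i * U x j) := by
    intro p
    rw [sum_mul_sum, Finset.smul_sum]
    refine sum_congr rfl fun i _ => ?_
    rw [Finset.smul_sum]
    refine sum_congr rfl fun j _ => ?_
    rw [smul_mul_smul_comm, smul_smul, mul_assoc]
  symm
  rw [sum_congr rfl fun p _ => h p, sum_comm]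
  refine sum_congr rfl fun i _ => ?_
  rw [sum_comm]
  refine sum_congr rfl fun j _ => ?_
  rw [Finset.sum_smul]

theorem sum_pow_ofFn {M X : Type} [Ring M] [Fintype X] (F : X → M) (m : ℕ) :
    (∑ p, F p) ^ m = ∑ g : Fin m → X, (List.ofFn (fun i => F (g i))).prod := by
  induction m with
  | zero => simp
  | succ m ih =>
    rw [pow_succ', ih, ← Equiv.sum_comp (Fin.consEquiv (fun _ => X)), Fintype.sum_prod_type,
      sum_mul_sum]
    refine sum_congr rfl fun p _ => sum_congr rfl fun g _ => ?_
    rw [List.ofFn_succ, List.prod_cons]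
    simp [Fin.consEquiv]

end Pool.Agent.H47.GR
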