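import Pool.Agent.H47.GR.Defs

/-!
# The identities for `rho`
-/

set_option autoImplicit false

namespace Pool.Agent.H47.GR

open Finset

theorem rho_erase (x : ℕ → ℝ) {s : Finset ℕ} {i j : ℕ} (hj : j ∈ s) (hij : i ≠ j) :
    rho x s i = (x i + x j) / (x i - x j) * rho x (s.erase j) i := by
  unfold rho
  rw [← mul_prod_erase (s.erase i) _ (mem_erase.2 ⟨hij.symm, hj⟩), erase_right_comm]

/-- two nodes in the other order: the sign changes -/
theorem rho_flip (x : ℕ → ℝ) {s : Finset ℕ} {i j : ℕ} (hi : i ∈ s) (hj : j ∈ s) (hij : i ≠ j) :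
    rho x s i * rho x (s.erase i) j = -(rho x s j * rho x (s.erase j) i) := by
  rw [rho_erase x hj hij, rho_erase x hi hij.symm]
  have h : (x j + x i) / (x j - x i) = -((x i + x j) / (x i - x j)) := by
    rw [← neg_sub (x i) (x j), div_neg, add_comm]
  rw [h]
  ring

/-- partial fractions -/
theorem sum_rho_gen (x : ℕ → ℝ) (s : Finset ℕ) : Set.InjOn x s → ∀ y : ℝ, (∀ i ∈ s, y + x i ≠ 0) →
    ∑ j ∈ s, rho x s j * (2 * x j / (y + x j)) = 1 - ∏ l ∈ s, (y - x l) / (y + x l) := by
  induction s using Finset.induction_on with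
  | empty => intro _ y _; simp
  | insert m t hm ih =>
    intro hinj y hy
    have hinj' : Set.InjOn x t := hinj.mono (by simp)
    have hne : ∀ j ∈ t, x j - x m ≠ 0 := by
      intro j hj h0
      have := hinj (mem_insert_of_mem hj) (mem_insert_self m t) (sub_eq_zero.1 h0)
      exact hm (this ▸ hj)
    have hym : y + x m ≠ 0 := hy m (mem_insert_self m t)
    have hyt : ∀ j ∈ t, y + x j ≠ 0 := fun j hj => hy j (mem_insert_of_mem hj)
    have h1 := ih hinj' y hyt
    have h2 := ih hinj' (-x m) (fun j hj => by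
      intro h0
      exact hne j hj (by linarith))
    have hr : ∀ j ∈ t, rho x (insert m t) j * (2 * x j / (y + x j)) =
        (y - x m) / (y + x m) * (rho x t j * (2 * x j / (y + x j))) +
          2 * x m / (y + x m) * (rho x t j * (2 * x j / (-x m + x j))) := by
      intro j hj
      have hjm : j ≠ m := by rintro rfl; exact hm hj
      rw [rho_erase x (mem_insert_self m t) hjm, erase_insert hm]
      have e1 := hne j hj
      have e2 := hyt j hj
      have e3 : -x m + x j ≠ 0 := by
        intro h0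
        exact e1 (by linarith)
      field_simp
      ring
    have hm' : rho x (insert m t) m = ∏ l ∈ t, (x m + x l) / (x m - x l) := by
      unfold rho
      rw [erase_insert hm]
    have h3 : ∏ l ∈ t, (-x m - x l) / (-x m + x l) = ∏ l ∈ t, (x m + x l) / (x m - x l) := by
      refine prod_congr rfl fun l hl => ?_
      rw [← neg_div_neg_eq]
      congr 1 <;> ring
    rw [sum_insert hm, sum_congr rfl hr, sum_add_distrib, ← mul_sum, ← mul_sum, h1, h2, h3, hm',
      prod_insert hm]
    field_simp
    ring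

/-- the sum of the weights -/
theorem sum_rho (x : ℕ → ℝ) (s : Finset ℕ) (hinj : Set.InjOn x s) (h0 : ∀ i ∈ s, x i ≠ 0) :
    ∑ j ∈ s, rho x s j = if Odd s.card then 1 else 0 := by
  have h := sum_rho_gen x s hinj 0 (fun i hi => by rw [zero_add]; exact h0 i hi)
  have h1 : ∑ j ∈ s, rho x s j * (2 * x j / (0 + x j)) = 2 * ∑ j ∈ s, rho x s j := by
    rw [mul_sum]
    refine sum_congr rfl fun j hj => ?_
    have := h0 j hj
    rw [zero_add, mul_div_assoc, div_self this]
    ring
  have h2 : ∏ l ∈ s, (0 - x l) / (0 + x l) = (-1 : ℝ) ^ s.card := by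
    rw [← prod_const]
    refine prod_congr rfl fun j hj => ?_
    have := h0 j hj
    rw [zero_add, zero_sub, neg_div, div_self this]
  rw [h1, h2] at h
  split_ifs with hs
  · rw [hs.neg_one_pow] at h
    linarith
  · rw [(Nat.not_odd_iff_even.1 hs).neg_one_pow] at h
    linarith

/-- the sum of the weights with the factors `(y - x j) / (y + x j)` -/
theorem sum_rho_S (x : ℕ → ℝ) (s : Finset ℕ) (hinj : Set.InjOn x s) (h0 : ∀ i ∈ s, x i ≠ 0)
    (hs : Odd s.card) (y : ℝ) (hy : ∀ i ∈ s, y + x i ≠ 0) :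
    ∑ j ∈ s, rho x s j * ((y - x j) / (y + x j)) = ∏ l ∈ s, (y - x l) / (y + x l) := by
  have h1 := sum_rho_gen x s hinj y hy
  have h2 := sum_rho x s hinj h0
  rw [if_pos hs] at h2
  have h3 : ∑ j ∈ s, rho x s j * ((y - x j) / (y + x j)) =
      ∑ j ∈ s, rho x s j - ∑ j ∈ s, rho x s j * (2 * x j / (y + x j)) := by
    rw [← sum_sub_distrib]
    refine sum_congr rfl fun j hj => ?_
    have := hy j hj
    field_simp
    ring
  rw [h3, h1, h2]
  ring

end Pool.Agent.H47.GR
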